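import Pool.Agent.MP_9f65ab_al.Defs

/-! The groups `G(A_1, ..., A_n)`: kernels of the sum map on a direct sum of subgroups of the
rationals. -/

set_option autoImplicit false

namespace Pool.Agent.MP_9f65ab_al

/-- The rational vectors whose coordinates have sum zero. -/
def SumZero (ι : Type) [Fintype ι] : Submodule ℚ (ι → ℚ) where
  carrier := {x | ∑ i, x i = 0}
  zero_mem' := by simp
  add_mem' := fun {a b} ha hb => by
    simp only [Set.mem_setOf_eq, Pi.add_apply, Finset.sum_add_distrib] at *
    rw [ha, hb, add_zero]
  smul_mem' := fun c x hx => by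
    simp only [Set.mem_setOf_eq, Pi.smul_apply, smul_eq_mul, ← Finset.mul_sum] at *
    rw [hx, mul_zero]

/-- `G(A)`: the vectors of sum zero whose coordinate `i` lies in `A i` for every `i`. -/
def kerSum {ι : Type} [Fintype ι] (A : ι → AddSubgroup ℚ) : AddSubgroup (SumZero ι) where
  carrier := {x | ∀ i, x.1 i ∈ A i}
  zero_mem' := fun i => (A i).zero_mem
  add_mem' := fun ha hb i => (A i).add_mem (ha i) (hb i)
  neg_mem' := fun ha i => (A i).neg_mem (ha i)

end Pool.Agent.MP_9f65ab_al
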