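import Pool.Agent.MP_9f65ab_al.Semi
import Pool.Agent.MP_9f65ab_al.Bridge
import Pool.Agent.MP_9f65ab_al.cor.Defs

/-! Long regulator chains among the groups `G(A)`. -/

set_option autoImplicit false

namespace Pool.Agent.MP_9f65ab_al.Cor

open Finset

section general
variable {ι : Type} [Fintype ι] [DecidableEq ι] {x : SumZero ι} {a b : ι}

/-- The coordinate forms. -/
def co (v : ι) : SumZero ι →ₗ[ℚ] ℚ := (LinearMap.proj v).comp (SumZero ι).subtype

omit [DecidableEq ι] in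
@[simp] theorem co_apply (v : ι) (x : SumZero ι) : co v x = x.1 v := rfl

/-- The difference of two unit vectors. -/
def dd (a b : ι) : SumZero ι := ⟨Pi.single a 1 - Pi.single b 1, by
  change ∑ i, (Pi.single a (1 : ℚ) - Pi.single b 1 : ι → ℚ) i = 0
  simp [sum_sub_distrib]⟩

theorem dd_apply (a b v : ι) :
    (dd a b).1 v = (if v = a then 1 else 0) - if v = b then 1 else 0 := by
  simp [dd, Pi.single_apply]

theorem dd_self (a : ι) : dd a a = 0 := Subtype.ext (sub_self _)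

theorem dd_add (a b c : ι) : dd a b + dd b c = dd a c := Subtype.ext (sub_add_sub_cancel _ _ _)

theorem dd_neg (a b : ι) : -dd a b = dd b a := Subtype.ext (neg_sub _ _)

theorem star_eq (x : SumZero ι) (b : ι) : x = ∑ v, x.1 v • dd v b := by
  refine Subtype.ext (funext fun w => ?_)
  have h : ∑ v, x.1 v = 0 := x.2
  simp only [AddSubmonoidClass.coe_finsetSum, Finset.sum_apply, SetLike.val_smul, Pi.smul_apply,
    dd_apply, smul_eq_mul, mul_sub, sum_sub_distrib, ← sum_mul, h]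
  simp

theorem two_sum (hab : a ≠ b) (h : ∀ v, v ≠ a → v ≠ b → x.1 v = 0) : x.1 a + x.1 b = 0 := by
  have h0 : ∑ v, x.1 v = 0 := x.2
  rw [← h0, ← sum_pair hab]
  exact sum_subset (subset_univ _) fun v _ hv => by
    simp only [mem_insert, mem_singleton, not_or] at hv
    exact h v hv.1 hv.2

theorem two_zero (hab : a ≠ b) (h : ∀ v, v ≠ a → v ≠ b → x.1 v = 0) (h' : x.1 a = 0 ∨ x.1 b = 0) :
    x = 0 := by
  have := two_sum hab h
  refine Subtype.ext (funext fun v => ?_)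
  by_cases e : v = a
  · rw [e]; change x.1 a = 0; rcases h' with h' | h' <;> linarith
  by_cases e' : v = b
  · rw [e']; change x.1 b = 0; rcases h' with h' | h' <;> linarith
  exact h v e e'

end general

theorem loc_SG {V : Type} [AddCommGroup V] [Module ℚ V] {κ : Type} [Finite κ]
    {π : κ → Nat.Primes} {f : κ → V →ₗ[ℚ] ℚ} {x : V} {q : Nat.Primes}
    (h : ∀ i, π i = q → f i x ∈ zl q) : x ∈ loc q (SG π f) := by
  classical
  have := Fintype.ofFinite κ
  choose m h1 h2 using fun i => away (f i x) q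
  refine ⟨∏ i, m i, fun e => ?_, mem_SG.2 fun i => ?_⟩
  · obtain ⟨i, -, hi⟩ := (q.2.prime.dvd_finset_prod_iff _).1 e
    exact h1 i hi
  · rw [map_smul, smul_eq_mul, ← mul_prod_erase _ _ (mem_univ i), mul_comm (m i), Nat.cast_mul,
      mul_assoc]
    exact mul_mem (natCast_mem _ _) (h2 i _ (h i))

variable {N : ℕ}

/-- The vertices of a tree. -/
abbrev Vx (N : ℕ) : Type := Option Bool ⊕ Fin (N + 1) × Fin 3

abbrev rt : Vx N := .inl (some true)

abbrev kk : Vx N := .inl (some false)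

abbrev ee : Vx N := .inl none

/-- The parent. -/
def par : Vx N → Vx N
  | .inl (some _) => rt
  | .inl none => .inr (0, 1)
  | .inr (a, j) => if j = 0 then .inr (a, 1) else if j = 1 then .inr (a, 2) else kk

/-- The group at the vertex `v` is divisible by the prime number `j`. -/
def has (v j : Vx N) : Prop := if j = rt then v ≠ kk else v = j ∨ v = par j

instance (v j : Vx N) : Decidable (has v j) := by unfold has; infer_instance

/-- The heights at the prime two. -/
def hh (g : Option (Fin (N + 1)) → ℕ) : Vx N → ℕ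
  | .inl (some b) => if b then N + 2 else 1
  | .inl none => g none
  | .inr (a, j) => if j = 0 then g (some a) else if j = 1 then 0 else 1

/-- The leaves. -/
def lf : Option (Fin (N + 1)) → Vx N
  | none => ee
  | some a => .inr (a, 0)

theorem lf_inj {a b : Option (Fin (N + 1))} : lf a = lf b ↔ a = b := by
  cases a <;> cases b <;> simp [lf]

theorem par_lf (a : Option (Fin (N + 1))) : par (lf a) = .inr (a.getD 0, 1) := by
  cases a <;> rfl

theorem hh_lf (g : Option (Fin (N + 1)) → ℕ) (a : Option (Fin (N + 1))) : hh g (lf a) = g a := by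
  cases a <;> rfl

theorem lf_ne (a : Option (Fin (N + 1))) : lf a ≠ rt ∧ lf a ≠ kk ∧
    (∀ b, lf a ≠ .inr (b, 1)) ∧ (∀ b, lf a ≠ .inr (b, 2)) ∧ ∀ j, lf a ≠ par j := by
  refine ⟨?_, ?_, fun _ => ?_, fun _ => ?_, ?_⟩
  iterate 4 cases a <;> simp [lf]
  rintro ((_ | _) | ⟨b, i⟩)
  · cases a <;> simp [lf, par]
  · cases a <;> simp [lf, par]
  · cases a <;> fin_cases i <;> simp [lf, par]

theorem vx_cases (v : Vx N) : v = rt ∨ v = kk ∨ (∃ a, v = lf a) ∨ (∃ a, v = .inr (a, 1)) ∨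
    ∃ a, v = .inr (a, 2) := by
  rcases v with (_ | _ | _) | ⟨a, i⟩
  · exact .inr (.inr (.inl ⟨none, rfl⟩))
  · simp
  · simp
  fin_cases i
  · exact .inr (.inr (.inl ⟨some a, rfl⟩))
  · simp
  · simp

noncomputable def pr (o : Option (Vx N)) : Nat.Primes :=
  ⟨Nat.nth Nat.Prime (Encodable.encode o), Nat.prime_nth_prime _⟩

theorem pr_inj {o o' : Option (Vx N)} : pr o = pr o' ↔ o = o' :=
  ⟨fun h => Encodable.encode_injective
    (Nat.nth_injective Nat.infinite_setOf_prime (congrArg Subtype.val h)), fun h => h ▸ rfl⟩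

theorem pr_none : ((pr (N := N) none : Nat.Primes) : ℕ) = 2 := Nat.nth_prime_zero_eq_two

/-- The forms. -/
def ff (g : Option (Fin (N + 1)) → ℕ) : Option (Vx N) × Vx N → SumZero (Vx N) →ₗ[ℚ] ℚ
  | (none, v) => (2 : ℚ) ^ hh g v • co v
  | (some j, v) => if has v j then 0 else co v

/-- The groups. -/
noncomputable def GG (g : Option (Fin (N + 1)) → ℕ) : AddSubgroup (SumZero (Vx N)) :=
  SG (fun i => pr i.1) (ff g)

variable {g : Option (Fin (N + 1)) → ℕ} {x : SumZero (Vx N)} {q : Nat.Primes} {τ : Chi} {j : Vx N}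

theorem all_ff (P : Nat.Primes → ℚ → Prop) (h0 : ∀ p, P p 0) :
    (∀ i : Option (Vx N) × Vx N, P (pr i.1) (ff g i x)) ↔
      (∀ v, P (pr (N := N) none) (2 ^ hh g v * x.1 v)) ∧
        ∀ j v, ¬ has v j → P (pr (some j)) (x.1 v) := by
  refine ⟨fun h => ⟨fun v => h (none, v), fun j v e => by simpa [ff, e] using h (some j, v)⟩, ?_⟩
  rintro ⟨h1, h2⟩ ⟨_ | j, v⟩
  · exact h1 v
  · by_cases e : has v j
    · simpa [ff, e] using h0 _
    · simpa [ff, e] using h2 j v e

theorem mem_GG : x ∈ GG g ↔ (∀ v, 2 ^ hh g v * x.1 v ∈ zl (pr (N := N) none)) ∧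
    ∀ j v, ¬ has v j → x.1 v ∈ zl (pr (some j)) :=
  mem_SG.trans (all_ff (fun p t => t ∈ zl p) fun _ => zero_mem _)

theorem van (Q : Nat.Primes → Prop) :
    (∀ i : Option (Vx N) × Vx N, Q (pr i.1) → ff g i x = 0) ↔
      (Q (pr (N := N) none) → x = 0) ∧ ∀ j, Q (pr (some j)) → ∀ v, ¬ has v j → x.1 v = 0 := by
  rw [all_ff (fun p t => Q p → t = 0) fun _ _ => rfl]
  refine and_congr ⟨fun h e => Subtype.ext (funext fun v => by simpa using h v e),
    fun h v e => by simp [h e]⟩ ⟨fun h j e v n => h j v n e, fun h j v n e => h j e v n⟩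

theorem butler : IsButler (GG g) :=
  SG_butler fun _ h => ((van fun _ => True).1 fun i _ => h i).1 trivial

theorem mem_U : x ∈ US (GG g) τ ↔ (τ (pr (N := N) none) = ⊤ → x = 0) ∧
    ∀ j, τ (pr (some j)) = ⊤ → ∀ v, ¬ has v j → x.1 v = 0 :=
  SG_US.trans (van fun p => τ p = ⊤)

theorem loc_GG (h1 : pr (N := N) none = q → ∀ v, 2 ^ hh g v * x.1 v ∈ zl q)
    (h2 : ∀ j, pr (some j) = q → ∀ v, ¬ has v j → x.1 v ∈ zl q) : x ∈ loc q (GG g) :=
  loc_SG ((all_ff (fun p t => p = q → t ∈ zl q) fun _ _ => zero_mem _).2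
    ⟨fun v e => h1 e v, fun j v n e => h2 j e v n⟩)

theorem ne_par (h : j ≠ rt) : j ≠ par j := by
  rcases j with (_ | _ | _) | ⟨a, i⟩
  · simp [par]
  · simp [par]
  · exact absurd rfl h
  · fin_cases i <;> simp [par]

theorem has_iff (h : j ≠ rt) {v : Vx N} : ¬ has v j ↔ v ≠ j ∧ v ≠ par j := by
  simp [has, h]

theorem has_rt {v : Vx N} : ¬ has v rt ↔ v = kk := by simp [has]

theorem two_mem : (2 : ℚ) ∈ zl q := by exact_mod_cast natCast_mem (zl q) 2

theorem half_mem (h : pr (N := N) none ≠ q) : (2 : ℚ)⁻¹ ∈ zl q := by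
  simpa [pr_none] using zl_inv_pow h.symm 1

theorem c0 (hx : x ∈ GG g) (a : Option (Fin (N + 1))) :
    2 ^ g a * x.1 (lf a) ∈ zl (pr (N := N) none) := by
  simpa [hh_lf] using (mem_GG.1 hx).1 (lf a)

theorem c1 (hx : x ∈ GG g) (a : Fin (N + 1)) : x.1 (.inr (a, 1)) ∈ zl (pr (N := N) none) := by
  simpa [hh] using (mem_GG.1 hx).1 (.inr (a, 1))

theorem c2 (hx : x ∈ GG g) (a : Fin (N + 1)) : 2 * x.1 (.inr (a, 2)) ∈ zl (pr (N := N) none) := by
  simpa [hh] using (mem_GG.1 hx).1 (.inr (a, 2))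

theorem ck (hx : x ∈ GG g) : 2 * x.1 kk ∈ zl (pr (N := N) none) := by
  simpa [hh] using (mem_GG.1 hx).1 kk

/-- The element that carries the defect. -/
noncomputable def mu (a : Option (Fin (N + 1))) : SumZero (Vx N) :=
  (2 : ℚ)⁻¹ • dd (lf a) (.inr (a.getD 0, 2))

theorem mu_lf (a b : Option (Fin (N + 1))) : (mu a).1 (lf b) = if b = a then 2⁻¹ else 0 := by
  simp [mu, dd_apply, lf_inj, (lf_ne b).2.2.2.1]

theorem mu_mem {a : Option (Fin (N + 1))} (h : g a = 1) : mu a ∈ GG g := by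
  refine mem_GG.2 ⟨fun v => ?_, fun j v _ => ?_⟩
  · by_cases e : v = lf a
    · simp [e, mu_lf, hh_lf, h]
    by_cases e' : v = .inr (a.getD 0, 2)
    · simp [mu, dd_apply, e', hh, ((lf_ne a).2.2.2.1 _).symm]
    · simp [mu, dd_apply, e, e']
  · refine mul_mem (half_mem (N := N) (by simp [pr_inj])) ?_
    rw [dd_apply]
    split_ifs <;> simp

theorem mu_W (a : Option (Fin (N + 1))) (h : ∀ j, j ≠ rt → τ (pr (N := N) (some j)) ≠ ⊤)
    (h2 : τ (pr (N := N) none) ≠ ⊤) : mu a ∈ WS (GG g) τ := by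
  have k : ∀ u : Vx N, u ≠ rt → u ≠ kk → par u ≠ kk → dd u (par u) ∈ WS (GG g) τ :=
    fun u u1 u2 u3 => by
      refine SG_WS (h u u1) (mem_U.2 ⟨fun e => absurd e h2, fun j e v hv => ?_⟩)
        ((van fun p => p = pr (some u)).2 ⟨by simp [pr_inj], fun j e v hv => ?_⟩)
      · obtain rfl : j = rt := by_contra fun n => h j n e
        rw [has_rt.1 hv, dd_apply, if_neg u2.symm, if_neg u3.symm, sub_self]
      · obtain rfl : j = u := by simpa [pr_inj] using e
        have := (has_iff u1).1 hv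
        simp [dd_apply, this.1, this.2]
  refine Submodule.smul_mem _ _ ?_
  rw [← dd_add _ (.inr (a.getD 0, 1))]
  exact add_mem (par_lf a ▸ k (lf a) (lf_ne a).1 (lf_ne a).2.1 (by simp [par_lf]))
    (k (.inr (a.getD 0, 1)) (by simp) (by simp) (by simp [par]))

theorem edge0 (hx : x ∈ GG g) (h : j ≠ rt) (hs : ∀ v, ¬ has v j → x.1 v = 0)
    (a : Option (Fin (N + 1))) : x.1 (lf a) ∈ zl (pr (N := N) none) := by
  by_cases e : j = lf a
  · subst e
    have := two_sum (ne_par h) fun v h1 h2 => hs v ((has_iff h).2 ⟨h1, h2⟩)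
    rw [eq_neg_of_add_eq_zero_left this, par_lf]
    exact neg_mem (c1 hx _)
  · rw [hs _ ((has_iff h).2 ⟨Ne.symm e, (lf_ne a).2.2.2.2 j⟩)]
    exact zero_mem _

theorem upper {a : Option (Fin (N + 1))} (h : g a = 1) (ψ : SumZero (Vx N) →ₗ[ℚ] ℚ)
    (h1 : ∀ y ∈ GG g, 2 * ψ y ∈ zl (pr (N := N) none)) (h2 : 2 * ψ (mu a) = 1)
    (h3 : ∀ y : SumZero (Vx N), (∀ b, y.1 (lf b) ∈ zl (pr (N := N) none)) →
      ψ y ∈ zl (pr (N := N) none)) (hx : x ∈ reg (GG g)) : ψ x ∈ zl (pr (N := N) none) := by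
  let B' := GG g ⊓ (zl (pr (N := N) none)).toAddSubgroup.comap ψ.toAddMonoidHom
  have hm : ∀ y, y ∈ B' ↔ y ∈ GG g ∧ ψ y ∈ zl (pr (N := N) none) := fun _ => Iff.rfl
  refine (butler.reg_le_of (B' := B') (μ := mu a) Bd.refl ⟨inf_le_left, 2, two_ne_zero,
    fun y hy => (hm _).2 ⟨qsmul_mem hy 2, by simpa using h1 y hy⟩⟩ inf_le_left
    (fun y hy => ?_) (fun τ _ => ?_) hx).2
  · obtain ⟨n, hn, z, hz⟩ := h1 y hy
    rw [pr_none] at hn
    obtain ⟨i, rfl⟩ : ∃ i, n = 2 * i + 1 := ⟨n / 2, by omega⟩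
    refine ⟨z, (hm _).2 ⟨sub_mem hy (zsmul_mem (mu_mem h) z), ?_⟩⟩
    convert neg_mem (mul_mem (natCast_mem _ i) (h1 y hy)) using 1
    rw [map_sub, map_zsmul, zsmul_eq_mul, ← hz]
    push_cast
    linear_combination (-(2 * (i : ℚ) + 1) * ψ y) * h2
  by_cases e : τ (pr (N := N) none) = ⊤
  · exact .inr fun y _ hU => by rw [(mem_U.1 hU).1 e]; exact zero_mem _
  by_cases e' : ∀ j, j ≠ rt → τ (pr (N := N) (some j)) ≠ ⊤
  · exact .inl (mu_W a e' e)
  push Not at e'
  obtain ⟨j, j1, j2⟩ := e'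
  exact .inr fun y hy hU => (hm y).2 ⟨hy, h3 y (edge0 hy j1 ((mem_U.1 hU).2 j j2))⟩

theorem reg_le {a : Option (Fin (N + 1))} (h : g a = 1) :
    reg (GG g) ≤ GG fun b => g b - 1 := fun x hx => by
  have hG := butler.bd_reg.1 hx
  have h0 : x.1 (lf a) ∈ zl (pr (N := N) none) :=
    upper h (co (lf a)) (fun y hy => by simpa [h] using c0 hy a) (by simp [mu_lf])
      (fun y hy => hy a) hx
  refine mem_GG.2 ⟨fun v => ?_, (mem_GG.1 hG).2⟩
  have k := (mem_GG.1 hG).1 v
  rcases vx_cases v with rfl | rfl | ⟨b, rfl⟩ | ⟨b, rfl⟩ | ⟨b, rfl⟩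
  · exact k
  · exact k
  rotate_left
  · exact k
  · exact k
  rw [hh_lf]
  by_cases e : b = a
  · simpa [e, h] using h0
  rcases hb : g b with _ | n
  · simpa [hb] using c0 hG b
  have := upper h (co (lf a) + (2 : ℚ) ^ n • co (lf b)) (fun y hy => by
      have k := add_mem (c0 hy a) (c0 hy b)
      rw [h, hb] at k
      convert k using 1
      simp only [LinearMap.add_apply, LinearMap.smul_apply, co_apply, smul_eq_mul]
      ring) (by simp [mu_lf, e])
    (fun y hy => add_mem (hy a) (mul_mem (pow_mem two_mem n) (hy b))) hx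
  simpa using sub_mem this h0

section lower
variable {C : Chi → AddSubgroup (SumZero (Vx N))}

theorem edge_mem (hC : Ch (GG g) (GG g) C) (h : j ≠ rt) (hx : x ∈ GG g)
    (hs : ∀ v, ¬ has v j → x.1 v = 0) : x ∈ ⨆ τ, C τ := by
  classical
  let τ : Chi := fun p => if p = pr (N := N) none ∨
    ∃ i, pr (some i) = p ∧ ¬ (has j i ∧ has (par j) i) then 0 else ⊤
  have t1 : ∀ i, τ (pr (some i)) = ⊤ ↔ has j i ∧ has (par j) i := fun i => by
    simp [τ, pr_inj, -Sum.forall, -Sum.exists]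
  obtain ⟨c, hc, hW⟩ := (hC τ).sp x hx (mem_U.2 ⟨by simp [τ], fun i e v hv => hs v
    ((has_iff h).2 ⟨fun n => hv (n ▸ ((t1 i).1 e).1), fun n => hv (n ▸ ((t1 i).1 e).2)⟩)⟩)
  have : x - c ∈ (⊥ : Submodule ℚ _) := SG_WS_le (fun q hq y hy e => by
    have h3 := (van fun p => p = q).1 e
    rcases (by_contra fun n => hq (if_neg n) : q = pr (N := N) none ∨
      ∃ i, pr (some i) = q ∧ ¬ (has j i ∧ has (par j) i)) with e' | ⟨i, e', n⟩
    · exact h3.1 e'.symm
    · exact two_zero (ne_par h) (fun v h1 h2 => (mem_U.1 hy).2 j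
        ((t1 j).2 (by simp [has, h])) v ((has_iff h).2 ⟨h1, h2⟩))
        ((not_and_or.1 n).imp (h3.2 i e' _) (h3.2 i e' _))) hW
  rw [Submodule.mem_bot, sub_eq_zero] at this
  exact this ▸ le_iSup C τ hc

theorem edge_loc (hC : Ch (GG g) (GG g) C) (h : j ≠ rt) {t : ℚ}
    (h1 : pr (N := N) none = q → 2 ^ hh g j * t ∈ zl q ∧ 2 ^ hh g (par j) * t ∈ zl q)
    (h2 : ∀ i, pr (some i) = q → t ∈ zl q ∨ (has j i ∧ has (par j) i)) :
    t • dd j (par j) ∈ loc q (⨆ τ, C τ) := by
  have k : ∀ (P : Vx N → ℚ → Prop), (∀ v, P v 0) → P j t → P (par j) (-t) →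
      ∀ v, P v ((t • dd j (par j)).1 v) := fun P a b c v => by
    by_cases e : v = j
    · simpa [dd_apply, e, ne_par h] using b
    by_cases e' : v = par j
    · simpa [dd_apply, e', (ne_par h).symm] using c
    · simpa [dd_apply, e, e'] using a v
  obtain ⟨m, hm, h3⟩ := loc_GG (g := g) (x := t • dd j (par j)) (q := q)
    (fun e => k (fun v s => 2 ^ hh g v * s ∈ zl q) (by simp) (h1 e).1 (by simpa using (h1 e).2))
    fun i e => k (fun v s => ¬ has v i → s ∈ zl q) (by simp)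
      (fun n => (h2 i e).resolve_right fun c => n c.1)
      fun n => neg_mem ((h2 i e).resolve_right fun c => n c.2)
  refine ⟨m, hm, edge_mem hC h h3 fun v hv => ?_⟩
  have := (has_iff h).1 hv
  simp [dd_apply, this.1, this.2]

theorem path {S : AddSubgroup (SumZero (Vx N))} {t : ℚ}
    (h : ∀ j, j ≠ rt → t • dd j (par j) ∈ S) (v w : Vx N) : t • dd v w ∈ S := by
  have k : ∀ v, t • dd v rt ∈ S := fun v => by
    have hk : t • dd kk rt ∈ S := h kk (by simp)
    have s : ∀ j, j ≠ rt → t • dd (par j) rt ∈ S → t • dd j rt ∈ S := fun j e e' => by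
      rw [← dd_add j (par j), smul_add]
      exact add_mem (h j e) e'
    have h2 := fun a => s (.inr (a, 2)) (by simp) hk
    have h1 := fun a => s (.inr (a, 1)) (by simp) (h2 a)
    rcases vx_cases v with rfl | rfl | ⟨b, rfl⟩ | ⟨b, rfl⟩ | ⟨b, rfl⟩
    · simp [dd_self]
    exacts [hk, s _ (lf_ne b).1 (par_lf b ▸ h1 _), h1 b, h2 b]
  rw [← dd_add v rt, ← dd_neg w, smul_add, smul_neg]
  exact add_mem (k v) (neg_mem (k w))

theorem alpha (hC : Ch (GG g) (GG g) C) (hg : g none ≤ 1)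
    (hq : pr (N := N) none = q ∨ pr (N := N) (some rt) = q)
    (hx : x ∈ GG g) (hk : x.1 kk = 0) : (2 : ℚ) • x ∈ loc q (⨆ τ, C τ) := by
  classical
  let τ : Chi := fun p => if p = pr (N := N) none ∨
    ∃ i, pr (N := N) (some i) = p ∧ i ≠ rt then 0 else ⊤
  have t1 : ∀ i, τ (pr (N := N) (some i)) = ⊤ ↔ i = rt := fun i => by
    simp [τ, pr_inj, -Sum.forall, -Sum.exists]
  have t2 : ∀ y : SumZero (Vx N), y ∈ US (GG g) τ ↔ y.1 kk = 0 := fun y => mem_U.trans
    ⟨fun e => e.2 rt ((t1 _).2 rfl) kk (has_rt.2 rfl), fun e => ⟨by simp [τ], fun i hi v hv => by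
      rw [(t1 i).1 hi] at hv; rwa [has_rt.1 hv]⟩⟩
  obtain ⟨c, hc, hW⟩ := (hC τ).sp x hx ((t2 x).2 hk)
  have hw := sub_mem hx ((hC τ).le c hc).1
  have w0 := (t2 _).1 (WS_le_US hW)
  have w1 : x - c ∈ ⨅ a, LinearMap.ker (co (.inr (a, 0)) + co (.inr (a, 1)) +
      co (ι := Vx N) (.inr (a, 2)) + (if a = 0 then (1 : ℚ) else 0) • co ee) :=
    SG_WS_le (fun q hq y hy e => by
    have h3 := (van fun p => p = q).1 e
    rcases (by_contra fun n => hq (if_neg n) : q = pr (N := N) none ∨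
      ∃ i, pr (N := N) (some i) = q ∧ i ≠ rt) with e' | ⟨i, e', n⟩
    · exact h3.1 e'.symm ▸ zero_mem _
    have h4 := fun v h1 h2 => h3.2 i e' v ((has_iff n).2 ⟨h1, h2⟩)
    have h5 := two_sum (ne_par n) h4
    have h6 := (t2 y).1 hy
    simp only [Submodule.mem_iInf, LinearMap.mem_ker, LinearMap.add_apply, co_apply,
      LinearMap.smul_apply, smul_eq_mul]
    intro a
    rcases i with (_ | _) | ⟨b, i⟩
    · change y.1 ee + y.1 (.inr (0, 1)) = 0 at h5
      rw [h4 (.inr (a, 0)) (by simp) (by simp [par]), h4 (.inr (a, 2)) (by simp) (by simp [par])]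
      split_ifs with e
      · rw [e]; linear_combination h5
      · rw [h4 _ (by simp) (by simp [par, e])]; simp
    · rw [h4, h4, h4, h4] <;> simp [par]
    rw [h4 ee (by simp) (by fin_cases i <;> simp [par]), mul_zero, add_zero]
    by_cases e : a = b
    · subst e
      fin_cases i
      · change y.1 (.inr (a, 0)) + y.1 (.inr (a, 1)) = 0 at h5
        linear_combination h5 + h4 (.inr (a, 2)) (by simp) (by simp [par])
      · change y.1 (.inr (a, 1)) + y.1 (.inr (a, 2)) = 0 at h5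
        linear_combination h5 + h4 (.inr (a, 0)) (by simp) (by simp [par])
      · change y.1 (.inr (a, 2)) + y.1 kk = 0 at h5
        linear_combination h5 - h6 + h4 (.inr (a, 0)) (by simp) (by simp [par]) +
          h4 (.inr (a, 1)) (by simp) (by simp [par])
    · rw [h4, h4, h4] <;> fin_cases i <;> simp [par, e]) hW
  simp only [Submodule.mem_iInf, LinearMap.mem_ker, LinearMap.add_apply, co_apply,
    LinearMap.smul_apply, smul_eq_mul] at w1
  rw [← sub_add_cancel x c, smul_add]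
  refine add_mem ?_ (le_loc (by exact_mod_cast qsmul_mem (le_iSup C τ hc) 2))
  generalize x - c = w at hw w0 w1
  have a3 : ∀ i : Vx N, pr (some i) = q → i = rt := fun i e => by
    rcases hq with e' | e' <;> simpa [← e', pr_inj] using e
  have ed : ∀ u : Vx N, u ≠ rt → u ≠ kk → par u ≠ kk → ∀ t : ℚ, (pr (N := N) none = q → t ∈ zl q) →
      t • dd u (par u) ∈ loc q (⨆ τ, C τ) := fun u u1 u2 u3 t ht => edge_loc hC u1
    (fun e => ⟨mul_mem (pow_mem two_mem _) (ht e), mul_mem (pow_mem two_mem _) (ht e)⟩)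
    fun i e => .inr (by simp [a3 i e, has, u2, u3])
  have a4 : pr (N := N) none = q → 2 * w.1 ee ∈ zl q := fun e => by
    have k : 2 ^ g none * w.1 ee ∈ zl q := e ▸ c0 hw none
    rcases Nat.le_one_iff_eq_zero_or_eq_one.1 hg with h | h <;> rw [h] at k
    · exact mul_mem two_mem (by simpa using k)
    · simpa using k
  have e2 : ∑ a : Fin (N + 1), ((if a = 0 then (1 : ℚ) else 0) * w.1 ee) •
      dd (ι := Vx N) (.inr (a, 1)) rt = w.1 ee • dd (.inr (0, 1)) rt := by simp
  rw [star_eq w rt, Fintype.sum_sum_type, Fintype.sum_option, Fintype.sum_bool,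
    Fintype.sum_prod_type, dd_self, w0, smul_zero, zero_smul, add_zero, add_zero,
    ← dd_add ee (.inr (0, 1)) rt, smul_add (w.1 ee), ← e2, add_assoc, ← sum_add_distrib, smul_add,
    smul_smul, smul_sum]
  refine add_mem (ed ee (by simp) (by simp) (by simp [par]) _ a4) (sum_mem fun a _ => ?_)
  have a2 : pr (N := N) none = q → 2 * w.1 (.inr (a, 2)) ∈ zl q := fun e => e ▸ c2 hw a
  have a0 : pr (N := N) none = q → 2 * w.1 (.inr (a, 0)) ∈ zl q := fun e => by
    have k : (if a = 0 then (1 : ℚ) else 0) ∈ zl q := by split_ifs <;> simp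
    convert neg_mem (add_mem (add_mem (mul_mem two_mem (e ▸ c1 hw a)) (a2 e))
      (mul_mem k (a4 e))) using 1
    linear_combination 2 * w1 a
  convert sub_mem (ed (.inr (a, 0)) (by simp) (by simp) (by simp [par]) _ a0)
    (ed (.inr (a, 1)) (by simp) (by simp) (by simp [par]) _ a2) using 1
  rw [Fin.sum_univ_three, ← dd_add (.inr (a, 0)) (.inr (a, 1)) rt,
    ← dd_add (.inr (a, 1)) (.inr (a, 2)) rt, eq_neg_of_add_eq_zero_right (w1 a)]
  change _ = _ • dd _ (Sum.inr (a, 1)) - _ • dd _ (Sum.inr (a, 2))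
  module

theorem alpha_loc (hC : Ch (GG g) (GG g) C) (hg : g none ≤ 1)
    (hq : pr (N := N) none = q ∨ pr (N := N) (some rt) = q) (hx : x ∈ loc q (GG g))
    (hk : x.1 kk = 0) : (2 : ℚ) • x ∈ loc q (⨆ τ, C τ) := by
  obtain ⟨m, hm, h⟩ := hx
  refine loc_of_mul hm ?_
  rw [smul_comm]
  exact alpha hC hg hq h (by simp [hk])

end lower

theorem le_reg (hg : ∀ a, g a ≤ N + 2) (g1 : g none ≤ 1) :
    (GG fun b => g b - 1) ≤ reg (GG g) := fun x hx => by
  refine Bd.refl.mem_reg.2 fun C hC _ => mem_of_local fun p hp => ?_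
  let q : Nat.Primes := ⟨p, hp⟩
  change x ∈ loc q (⨆ τ, C τ)
  by_cases e : pr (N := N) none = q
  · have n : ∀ i, pr (N := N) (some i) ≠ q := fun i e' => by simpa [pr_inj] using e'.trans e.symm
    have s : ∀ j, j ≠ rt → ∀ t : ℚ, 2 ^ hh g j * t ∈ zl q → 2 ^ hh g (par j) * t ∈ zl q →
        t • dd (par j) rt ∈ loc q (⨆ τ, C τ) → t • dd j rt ∈ loc q (⨆ τ, C τ) :=
      fun j hj t a b c => by
        rw [← dd_add j (par j), smul_add]
        exact add_mem (edge_loc hC hj (fun _ => ⟨a, b⟩) fun i e' => absurd e' (n i)) c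
    have up : ∀ (t : ℚ) (k : ℕ), t ∈ zl q → 2 ^ k * t ∈ zl q := fun t k h =>
      mul_mem (pow_mem two_mem k) h
    have sk : ∀ t : ℚ, 2 * t ∈ zl q → t • dd kk rt ∈ loc q (⨆ τ, C τ) := fun t h =>
      s kk (by simp) t (by simpa [hh] using h)
        (by simpa [hh, par, pow_succ, mul_assoc] using up _ (N + 1) h) (by simp [par, dd_self])
    have s2 : ∀ a, ∀ t : ℚ, 2 * t ∈ zl q → t • dd (.inr (a, 2)) rt ∈ loc q (⨆ τ, C τ) :=
      fun a t h => s _ (by simp) t (by simpa [hh] using h) (by simpa [hh, par] using h) (sk t h)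
    have s1 : ∀ a, ∀ t ∈ zl q, t • dd (.inr (a, 1)) rt ∈ loc q (⨆ τ, C τ) :=
      fun a t h => s _ (by simp) t (up t _ h) (up t _ h) (s2 a t (mul_mem two_mem h))
    rw [star_eq x rt]
    refine sum_mem fun v _ => ?_
    rcases vx_cases v with rfl | rfl | ⟨a, rfl⟩ | ⟨a, rfl⟩ | ⟨a, rfl⟩
    · simp [dd_self]
    · exact sk _ (e ▸ ck hx)
    · have k : 2 ^ (g a - 1) * x.1 (lf a) ∈ zl q := e ▸ c0 hx a
      generalize x.1 (lf a) = t at k
      rcases hb : g a with _ | r
      · have k' : t ∈ zl q := by simpa [hb] using k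
        exact s _ (lf_ne a).1 t (up t _ k') (up t _ k') (par_lf a ▸ s1 _ t k')
      rw [hb, Nat.add_sub_cancel] at k
      have := alpha_loc hC g1 (.inl e) (x := (2⁻¹ * t) • dd (lf a) rt)
        (loc_GG (fun _ v => ?_) fun i e' => absurd e' (n i)) (by simp [dd_apply, (lf_ne a).2.1.symm])
      · rwa [smul_smul, mul_inv_cancel_left₀ two_ne_zero] at this
      by_cases e1 : v = lf a
      · convert k using 1
        simp [e1, dd_apply, hh_lf, hb, pow_succ, (lf_ne a).1]
        ring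
      by_cases e2 : v = rt
      · obtain ⟨d, hd⟩ := Nat.exists_eq_add_of_le (hb ▸ hg a)
        convert neg_mem (up _ d k) using 1
        simp [e2, dd_apply, hh, hd, pow_add, (lf_ne a).1.symm]
        ring
      · simp [dd_apply, e1, e2]
    · exact s1 a _ (e ▸ c1 hx a)
    · exact s2 a _ (e ▸ c2 hx a)
  have one : ∀ v w, dd v w ∈ loc q (⨆ τ, C τ) := fun v w => by
    simpa using path (t := 1) (fun j hj => edge_loc hC hj (fun e' => absurd e' e)
      fun _ _ => .inl (one_mem _)) v w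
  by_cases e' : ∃ j, pr (N := N) (some j) = q
  swap
  · rw [star_eq x rt]
    exact sum_mem fun v _ => path (fun j hj => edge_loc hC hj (fun e' => absurd e' e)
      fun i n => absurd ⟨i, n⟩ e') v rt
  obtain ⟨j, hj⟩ := e'
  have u : ∀ i, pr (some i) = q → i = j := fun i n => by simpa [pr_inj] using n.trans hj.symm
  rw [star_eq x (par j)]
  refine sum_mem fun v _ => ?_
  by_cases hv : has v j
  swap
  · exact loc_smul (hj ▸ (mem_GG.1 hx).2 j v hv) (one _ _)
  by_cases r : j = rt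
  · subst r
    have hv' : v ≠ kk := by simpa [has] using hv
    have z : (x.1 v • dd v (par rt)).1 kk = 0 := by simp [dd_apply, par, hv'.symm]
    have := loc_smul (half_mem e) (alpha_loc hC g1 (.inr hj) (x := x.1 v • dd v (par rt))
      (loc_GG (fun n => absurd n e) fun i n w hw => by
        rw [u i n] at hw; rw [has_rt.1 hw, z]; exact zero_mem _) z)
    rwa [smul_smul, inv_mul_cancel₀ two_ne_zero, one_smul] at this
  rcases (by simpa [has, r] using hv : v = j ∨ v = par j) with rfl | rfl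
  · exact edge_loc hC r (fun n => absurd n e) fun i n => .inr (by simp [u i n, has, r])
  · simp [dd_self]

/-- The groups at the vertices. -/
noncomputable def AA (g : Option (Fin (N + 1)) → ℕ) (v : Vx N) : AddSubgroup ℚ where
  carrier := {t | 2 ^ hh g v * t ∈ zl (pr (N := N) none) ∧ ∀ j, ¬ has v j → t ∈ zl (pr (some j))}
  zero_mem' := by simp
  add_mem' := fun a b => ⟨by rw [mul_add]; exact add_mem a.1 b.1,
    fun j h => add_mem (a.2 j h) (b.2 j h)⟩
  neg_mem' := fun a => ⟨by rw [mul_neg]; exact neg_mem a.1, fun j h => neg_mem (a.2 j h)⟩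

theorem kerSum_AA : kerSum (AA g) = GG g := AddSubgroup.ext fun _ =>
  Iff.trans ⟨fun h => ⟨fun v => (h v).1, fun j v => (h v).2 j⟩,
    fun h v => ⟨h.1 v, fun j => h.2 j v⟩⟩ mem_GG.symm

theorem one_mem_AA (v : Vx N) : 1 ∈ AA g v :=
  ⟨mul_mem (pow_mem two_mem _) (one_mem _), fun _ _ => one_mem _⟩

/-- The heights of the leaves after `r` steps. -/
def gg (N r : ℕ) : Option (Fin (N + 1)) → ℕ
  | none => 1 - r
  | some a => a.1 + 2 - r

theorem gg_one {r : ℕ} (hr : r < N + 2) : ∃ a, gg N r a = 1 := by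
  rcases r with _ | r
  · exact ⟨none, rfl⟩
  · exact ⟨some ⟨r, by omega⟩, by simp [gg]⟩

theorem gg_succ (r : ℕ) : (fun a => gg N r a - 1) = gg N (r + 1) := by
  funext a
  cases a <;> rfl

theorem gg_le (r : ℕ) : GG (gg N (r + 1)) ≤ reg (GG (gg N r)) :=
  gg_succ (N := N) r ▸ le_reg (fun a => by cases a <;> simp only [gg] <;> omega)
    (by simp only [gg]; omega)

theorem iter (r : ℕ) (hr : r ≤ N + 2) : reg^[r] (GG (gg N 0)) = GG (gg N r) := by
  induction r with
  | zero => rfl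
  | succ r ih =>
    obtain ⟨a, ha⟩ := gg_one (N := N) hr
    rw [Function.iterate_succ_apply', ih (by omega)]
    exact le_antisymm (gg_succ (N := N) r ▸ reg_le ha) (gg_le r)

theorem chain (N : ℕ) :
    (∀ r < N + 2, reg^[r + 1] (GG (gg N 0)) < reg^[r] (GG (gg N 0))) ∧
      reg^[N + 2 + 1] (GG (gg N 0)) = reg^[N + 2] (GG (gg N 0)) := by
  constructor
  · intro r hr
    obtain ⟨a, ha⟩ := gg_one (N := N) hr
    rw [Function.iterate_succ_apply', iter r hr.le]
    refine lt_of_le_of_ne butler.bd_reg.1 fun e => ?_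
    obtain ⟨n, hn, z, hz⟩ := c0 (reg_le ha (e.ge (mu_mem ha))) a
    rw [pr_none] at hn
    refine hn (Int.natCast_dvd_natCast.1 ⟨z, ?_⟩)
    have : (n : ℚ) = 2 * z := by rw [← hz]; simp [mu_lf, ha]; ring
    exact_mod_cast this
  · rw [Function.iterate_succ_apply', iter _ le_rfl]
    refine le_antisymm butler.bd_reg.1 (le_trans (le_of_eq ?_) (gg_le _))
    congr 1
    funext a
    cases a <;> simp only [gg] <;> omega

end Pool.Agent.MP_9f65ab_al.Cor
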